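import Pool.Agent.N299.ND.Stm

/-!
Domination lemma for order zero maps (project ND, task DL).
-/

set_option autoImplicit false

noncomputable section

namespace Pool.Agent.N403.ND

open Pool.Agent.N299 Pool.Agent.N299.DT Pool.Agent.N299.ND

section

variable {R B : Type} [CStarAlgebra R] [CStarAlgebra B]

/-- functions of `φ 1` commute with the range of `φ` -/
lemma comm_cfc {φ : R →ₗ[ℂ] B} (h : OZ φ) (f : ℝ → ℝ) (x : R) :
    cfc f (φ 1) * φ x = φ x * cfc f (φ 1) := by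
  have hs : star (φ 1) = φ 1 := by rw [← h.st, star_one]
  have h1 : Commute (φ 1) (φ x) := h.comm x
  exact (h1.cfc_real f).eq

lemma pos_sub {x : R} : Pos (((‖x‖ ^ 2 : ℝ) : ℂ) • (1 : R) - x * star x) := by
  let _ : PartialOrder R := CStarAlgebra.spectralOrder R
  let _ : StarOrderedRing R := CStarAlgebra.spectralOrderedRing R
  rw [pos_iff, sub_nonneg, real_smul_eq, ← Algebra.algebraMap_eq_smul_one]
  have h1 : IsSelfAdjoint (x * star x) := by
    show star (x * star x) = x * star x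
    simp
  have h2 := IsSelfAdjoint.le_algebraMap_norm_self h1
  rw [CStarRing.norm_self_mul_star, ← pow_two] at h2
  exact h2

lemma pos_hh {φ : R →ₗ[ℂ] B} (h : OZ φ) (x : R) :
    Pos (((‖x‖ ^ 2 : ℝ) : ℂ) • (φ 1 * φ 1) - φ 1 * φ (x * star x)) := by
  let _ : PartialOrder B := CStarAlgebra.spectralOrder B
  let _ : StarOrderedRing B := CStarAlgebra.spectralOrderedRing B
  have h1 := h.pos _ (pos_sub (x := x))
  rw [map_sub, map_smul] at h1
  have h2 := h1.conj (cfc Real.sqrt (φ 1))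
  have hp : (0 : B) ≤ φ 1 := by
    rw [← pos_iff]
    exact h.pos 1 ⟨1, by simp⟩
  have hsq : cfc Real.sqrt (φ 1) * cfc Real.sqrt (φ 1) = φ 1 := by
    rw [← cfc_mul (R := ℝ) _ _ (φ 1) (by fun_prop) (by fun_prop)]
    conv_rhs => rw [← cfc_id' ℝ (φ 1)]
    refine cfc_congr fun t ht => ?_
    exact Real.mul_self_sqrt (spectrum_nonneg_of_nonneg hp ht)
  have h3 : star (cfc Real.sqrt (φ 1)) * (((‖x‖ ^ 2 : ℝ) : ℂ) • φ 1 - φ (x * star x))
      * cfc Real.sqrt (φ 1)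
      = ((‖x‖ ^ 2 : ℝ) : ℂ) • (φ 1 * φ 1) - φ 1 * φ (x * star x) := by
    rw [cfc_sa, mul_assoc, sub_mul, smul_mul_assoc, ← comm_cfc h, ← comm_cfc h, mul_sub,
      mul_smul_comm, ← mul_assoc, ← mul_assoc, hsq]
  rw [h3] at h2
  exact h2

lemma normL {φ : R →ₗ[ℂ] B} (h : OZ φ) (D : B) (x : R) : ‖D * φ x‖ ≤ ‖x‖ * ‖D * φ 1‖ := by
  have h1 := (pos_hh h x).conj (star D)
  have hs : star (φ 1) = φ 1 := by rw [← h.st, star_one]
  have h2 : star (star D) * (((‖x‖ ^ 2 : ℝ) : ℂ) • (φ 1 * φ 1) - φ 1 * φ (x * star x)) * star D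
      = ((‖x‖ ^ 2 : ℝ) : ℂ) • (star (star (D * φ 1)) * star (D * φ 1))
        - star (star (D * φ x)) * star (D * φ x) := by
    rw [star_star, star_star, star_star, star_mul, star_mul, hs, ← h.st, mul_sub, sub_mul,
      ← h.mul, mul_smul_comm, smul_mul_assoc]
    simp only [mul_assoc]
  rw [h2] at h1
  have h3 := norm_sq_le_of_pos (by positivity) h1
  rw [norm_star, norm_star, ← mul_pow] at h3
  exact le_of_sq_le_sq h3 (by positivity)

lemma normR {φ : R →ₗ[ℂ] B} (h : OZ φ) (D : B) (x : R) : ‖φ x * D‖ ≤ ‖x‖ * ‖φ 1 * D‖ := by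
  have hs : star (φ 1) = φ 1 := by rw [← h.st, star_one]
  have h1 := normL h (star D) (star x)
  rw [h.st, ← star_mul, norm_star, norm_star] at h1
  have h2 : star D * φ 1 = star (φ 1 * D) := by rw [star_mul, hs]
  rw [h2, norm_star] at h1
  exact h1

lemma spec {φ : R →ₗ[ℂ] B} (h : OZ φ) {t : ℝ} (ht : t ∈ spectrum ℝ (φ 1)) : 0 ≤ t ∧ t ≤ 1 := by
  let _ : PartialOrder B := CStarAlgebra.spectralOrder B
  let _ : StarOrderedRing B := CStarAlgebra.spectralOrderedRing B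
  have hp : (0 : B) ≤ φ 1 := by
    rw [← pos_iff]
    exact h.pos 1 ⟨1, by simp⟩
  have hs : IsSelfAdjoint (φ 1) := IsSelfAdjoint.of_nonneg hp
  refine ⟨spectrum_nonneg_of_nonneg hp ht, ?_⟩
  have h1 := h.le
  rw [pos_iff, sub_nonneg, ← map_one (algebraMap ℝ B), le_algebraMap_iff_spectrum_le] at h1
  exact h1 t ht

lemma contL {φ : R →ₗ[ℂ] B} (h : OZ φ) {ε : ℝ} (hε : 0 < ε) :
    ContinuousOn (fun t : ℝ => (t + ε)⁻¹) (spectrum ℝ (φ 1)) := by
  refine ContinuousOn.inv₀ (by fun_prop) fun t ht => ?_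
  have := (spec h ht).1
  positivity

lemma inv_eq {φ : R →ₗ[ℂ] B} (h : OZ φ) {ε : ℝ} (hε : 0 < ε) :
    Ring.inverse (φ 1 + (ε : ℂ) • 1) = cfc (fun t : ℝ => (t + ε)⁻¹) (φ 1) := by
  have hs : IsSelfAdjoint (φ 1) := by
    show star (φ 1) = φ 1
    rw [← h.st, star_one]
  have h1 : φ 1 + (ε : ℂ) • (1 : B) = cfc (fun t : ℝ => t + ε) (φ 1) := by
    rw [cfc_add_const ε (fun t : ℝ => t) (φ 1) (by fun_prop), cfc_id' ℝ (φ 1), real_smul_eq,
      Algebra.algebraMap_eq_smul_one]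
  have h2 : cfc (fun t : ℝ => t + ε) (φ 1) * cfc (fun t : ℝ => (t + ε)⁻¹) (φ 1) = 1 := by
    rw [← cfc_mul (R := ℝ) _ _ (φ 1) (by fun_prop) (contL h hε), ← cfc_one ℝ (φ 1)]
    refine cfc_congr fun t ht => ?_
    have := (spec h ht).1
    have h3 : t + ε ≠ 0 := by positivity
    simp only [Pi.one_apply]
    exact mul_inv_cancel₀ h3
  have h3 : cfc (fun t : ℝ => (t + ε)⁻¹) (φ 1) * cfc (fun t : ℝ => t + ε) (φ 1) = 1 := by
    rw [← cfc_mul (R := ℝ) _ _ (φ 1) (contL h hε) (by fun_prop), ← cfc_one ℝ (φ 1)]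
    refine cfc_congr fun t ht => ?_
    have := (spec h ht).1
    have h3 : t + ε ≠ 0 := by positivity
    simp only [Pi.one_apply]
    exact inv_mul_cancel₀ h3
  rw [h1]
  exact Ring.inverse_unit (⟨_, _, h2, h3⟩ : Bˣ)

end

theorem t_DL : S_DL := by
  intro R B _ _ φ h
  have hs : IsSelfAdjoint (φ 1) := by
    show star (φ 1) = φ 1
    rw [← h.st, star_one]
  refine ⟨fun D x => ⟨normL h D x, normR h D x⟩, fun x y hxy => ?_, ?_⟩
  · rw [← map_sub]
    exact h.pos _ hxy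
  intro ε x z y hε hx hz hy
  rw [inv_eq h hε]
  set g : B := cfc (fun t : ℝ => (t + ε)⁻¹) (φ 1) with hg
  have hc := contL h hε
  have hcomm : ∀ w, g * φ w = φ w * g := fun w => comm_cfc h _ w
  have hgn : ‖g‖ ≤ ε⁻¹ := by
    refine norm_cfc_le (by positivity) fun t ht => ?_
    have h1 := (spec h ht).1
    rw [Real.norm_eq_abs, abs_of_nonneg (by positivity)]
    exact inv_anti₀ hε (by linarith)
  have hgh : g * φ 1 = cfc (fun t : ℝ => (t + ε)⁻¹ * t) (φ 1) := by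
    rw [cfc_mul (R := ℝ) (fun t => (t + ε)⁻¹) (fun t => t) (φ 1) hc (by fun_prop),
      cfc_id' ℝ (φ 1)]
  have hghn : ‖g * φ 1‖ ≤ 1 := by
    rw [hgh]
    refine norm_cfc_le zero_le_one fun t ht => ?_
    have h1 := (spec h ht).1
    rw [Real.norm_eq_abs, abs_of_nonneg (by positivity), inv_mul_le_iff₀ (by positivity)]
    linarith
  have hz' : ∀ w : R, ‖w‖ ≤ 1 → ‖g * φ w‖ ≤ 1 := fun w hw =>
    (normL h g w).trans (mul_le_one₀ hw (norm_nonneg _) hghn)
  refine ⟨g * φ z, g * φ y, hz' z hz, hz' y hy, rfl, hcomm z, rfl, ?_, ?_, hgn⟩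
  · intro hzz
    calc g * φ z * (g * φ z) = g * (φ z * g) * φ z := by simp only [mul_assoc]
      _ = g * (g * φ z) * φ z := by rw [hcomm]
      _ = g * g * (φ z * φ z) := by simp only [mul_assoc]
      _ = 0 := by rw [h.mul, hzz, map_zero, mul_zero, mul_zero]
  · have h1 : φ x * (g * φ z) * (g * φ y) = (g * φ 1) * (g * φ 1) * φ (x * z * y) := by
      calc φ x * (g * φ z) * (g * φ y) = (φ x * g) * (φ z * g) * φ y := by simp only [mul_assoc]
        _ = (g * φ x) * (g * φ z) * φ y := by rw [hcomm, hcomm]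
        _ = g * (φ x * g) * φ z * φ y := by simp only [mul_assoc]
        _ = g * (g * φ x) * φ z * φ y := by rw [hcomm]
        _ = g * g * (φ x * φ z * φ y) := by simp only [mul_assoc]
        _ = g * g * (φ 1 * (φ 1 * φ (x * z * y))) := by
            rw [h.mul x z, mul_assoc (φ 1), h.mul (x * z) y]
        _ = g * (g * φ 1) * (φ 1 * φ (x * z * y)) := by simp only [mul_assoc]
        _ = g * (φ 1 * g) * (φ 1 * φ (x * z * y)) := by rw [hcomm]
        _ = (g * φ 1) * (g * φ 1) * φ (x * z * y) := by simp only [mul_assoc]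
    have h2 : φ x * (g * φ z) * (g * φ y) - φ (x * z * y)
        = ((g * φ 1) * (g * φ 1) - 1) * φ (x * z * y) := by
      rw [h1, sub_mul, one_mul]
    rw [h2]
    have hn : ‖x * z * y‖ ≤ 1 := by
      refine (norm_mul_le _ _).trans (mul_le_one₀ ?_ (norm_nonneg _) hy)
      exact (norm_mul_le _ _).trans (mul_le_one₀ hx (norm_nonneg _) hz)
    have hc2 : ContinuousOn (fun t : ℝ => (t + ε)⁻¹ * t) (spectrum ℝ (φ 1)) :=
      hc.mul (by fun_prop)
    have h3 : ((g * φ 1) * (g * φ 1) - 1) * φ 1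
        = cfc (fun t : ℝ => ((t + ε)⁻¹ * t * ((t + ε)⁻¹ * t) - 1) * t) (φ 1) := by
      rw [cfc_mul (R := ℝ) (fun t => (t + ε)⁻¹ * t * ((t + ε)⁻¹ * t) - 1) (fun t => t) (φ 1)
        ((hc2.mul hc2).sub continuousOn_const) (by fun_prop),
        cfc_sub (R := ℝ) (fun t => (t + ε)⁻¹ * t * ((t + ε)⁻¹ * t)) (fun _ => 1) (φ 1)
        (hc2.mul hc2) continuousOn_const,
        cfc_mul (R := ℝ) (fun t => (t + ε)⁻¹ * t) (fun t => (t + ε)⁻¹ * t) (φ 1) hc2 hc2,
        cfc_id' ℝ (φ 1), cfc_const_one ℝ (φ 1), hgh]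
    refine (normL h _ _).trans ?_
    have h4 : ‖((g * φ 1) * (g * φ 1) - 1) * φ 1‖ ≤ 2 * ε := by
      rw [h3]
      refine norm_cfc_le (by positivity) fun t ht => ?_
      have ht0 := (spec h ht).1
      have h5 : 0 < t + ε := by positivity
      have h6 : ((t + ε)⁻¹ * t * ((t + ε)⁻¹ * t) - 1) * t
          = -(ε * t * (2 * t + ε) / (t + ε) ^ 2) := by
        field_simp
        ring
      rw [h6, norm_neg, Real.norm_eq_abs, abs_of_nonneg (by positivity), div_le_iff₀ (by positivity)]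
      have h7 : 0 ≤ t * ε := by positivity
      nlinarith [mul_nonneg hε.le h7, mul_nonneg hε.le (mul_nonneg hε.le hε.le), mul_nonneg h7 hε.le]
    calc ‖x * z * y‖ * ‖((g * φ 1) * (g * φ 1) - 1) * φ 1‖ ≤ 1 * (2 * ε) :=
          mul_le_mul hn h4 (norm_nonneg _) zero_le_one
      _ = 2 * ε := one_mul _

end Pool.Agent.N403.ND
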